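import Pool.Agent.H53.VK.ASM2
import Pool.Agent.H53.VK.SXO

set_option autoImplicit false

/-!
# A lower bound for the connectivity of all visibility graphs

For every finite planar point set `P` the visibility graph satisfies
`κ ≥ min ((2 δ + 1) / 3, (δ + max (5, √δ)) / 2)`. Known before: `κ ≥ δ / 2 + 1`
(Payne, Por, Valtr, Wood). In particular the conjectured bound `(2 δ + 1) / 3` holds for all
point sets with `δ ≤ 14`.
-/

theorem Pool.Agent.Results.MP_5f22fc_co.AllPointSets.result :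
    ∀ (P : Finset (ℝ × ℝ)), 2 ≤ P.card →
      ∀ G : SimpleGraph (ℝ × ℝ),
        (∀ p q : ℝ × ℝ, G.Adj p q ↔
          (p ∈ P ∧ q ∈ P ∧ p ≠ q ∧ ∀ r ∈ P, r ∉ openSegment ℝ p q)) →
        ∀ d : ℕ, (∀ p ∈ P, d ≤ (G.neighborSet p).ncard) →
          (2 * d + 1 ≤ 3 * (P.card - 1) ∧
            ∀ S : Finset (ℝ × ℝ), S ⊆ P → 3 * S.card < 2 * d + 1 →
              2 * (S.card : ℝ) < (d : ℝ) + max 5 (Real.sqrt d) →
              (G.induce ((P : Set (ℝ × ℝ)) \ (S : Set (ℝ × ℝ)))).Connected) :=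
  VK.all_points VK.own_SXO
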