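import Pool.Agent.H53.VK.ASM2
import Pool.Agent.H53.VK.SXO
import Pool.Agent.H53.VK.FIN5

set_option autoImplicit false

/-!
# Visibility graphs of point sets with boundedly many collinear points

If no line contains more than `2 t + 2` points of the finite planar set `P`, then
`κ ≥ min ((2 δ + 1) / 3, (2 t + 1) (δ + 3) / (4 t + 1))`. The factor `(2 t + 1) / (4 t + 1)` is larger
than the factor `1 / 2` of the general bound `δ / 2 + 1` (Payne, Por, Valtr, Wood), for every `t`.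
-/

theorem Pool.Agent.Results.MP_5f22fc_co.BoundedCollinear.result :
    ∀ (t : ℕ) (P : Finset (ℝ × ℝ)), 2 ≤ P.card →
      (∀ Q : Finset (ℝ × ℝ), Q ⊆ P → Collinear ℝ (Q : Set (ℝ × ℝ)) → Q.card ≤ 2 * t + 2) →
      ∀ G : SimpleGraph (ℝ × ℝ),
        (∀ p q : ℝ × ℝ, G.Adj p q ↔
          (p ∈ P ∧ q ∈ P ∧ p ≠ q ∧ ∀ r ∈ P, r ∉ openSegment ℝ p q)) →
        ∀ d : ℕ, (∀ p ∈ P, d ≤ (G.neighborSet p).ncard) →
          (2 * d + 1 ≤ 3 * (P.card - 1) ∧
            ∀ S : Finset (ℝ × ℝ), S ⊆ P → 3 * S.card < 2 * d + 1 →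
              (4 * t + 1) * S.card < (2 * t + 1) * (d + 3) →
              (G.induce ((P : Set (ℝ × ℝ)) \ (S : Set (ℝ × ℝ)))).Connected) :=
  VK.FIN5_main VK.bounds VK.RD1_proved VK.rd4 VK.own_SXO VK.SXR_proved VK.scl VK.bcl
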