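import Pool.Agent.H53.VK.ASM
import Pool.Agent.H53.VK.FIN6

set_option autoImplicit false

/-!
# The visibility graph conjecture when few lines contain more than six points

Let `P` be a finite planar point set and `T ⊆ P` such that at most two lines contain at least seven
points of `P` and at least six points of `P \ T`. Then the vertex-connectivity of the visibility graph of
`P` is at least `(2 δ + 1 - 2 |T|) / 3`. For `T = ∅`: the conjectured bound `(2 δ + 1) / 3` holds whenever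
at most two lines contain more than six points of `P`. Known before: no line contains more
than four points of `P` (Payne, Por, Valtr, Wood).
-/

theorem Pool.Agent.Results.MP_5f22fc_co.RichLines.result :
    ∀ (P : Finset (ℝ × ℝ)), 2 ≤ P.card → ∀ T : Finset (ℝ × ℝ), T ⊆ P →
      (∀ Q₁ Q₂ Q₃ : Finset (ℝ × ℝ), Q₁ ⊆ P → Q₂ ⊆ P → Q₃ ⊆ P →
        Collinear ℝ (Q₁ : Set (ℝ × ℝ)) → Collinear ℝ (Q₂ : Set (ℝ × ℝ)) →
        Collinear ℝ (Q₃ : Set (ℝ × ℝ)) → 7 ≤ Q₁.card → 7 ≤ Q₂.card → 7 ≤ Q₃.card →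
        6 ≤ (Q₁ \ T).card → 6 ≤ (Q₂ \ T).card → 6 ≤ (Q₃ \ T).card →
        Collinear ℝ ((Q₁ : Set (ℝ × ℝ)) ∪ Q₂) ∨ Collinear ℝ ((Q₁ : Set (ℝ × ℝ)) ∪ Q₃) ∨
        Collinear ℝ ((Q₂ : Set (ℝ × ℝ)) ∪ Q₃)) →
      ∀ G : SimpleGraph (ℝ × ℝ),
        (∀ p q : ℝ × ℝ, G.Adj p q ↔
          (p ∈ P ∧ q ∈ P ∧ p ≠ q ∧ ∀ r ∈ P, r ∉ openSegment ℝ p q)) →
        ∀ d : ℕ, (∀ p ∈ P, d ≤ (G.neighborSet p).ncard) →
          (2 * d + 1 ≤ 3 * (P.card - 1) ∧
            ∀ S : Finset (ℝ × ℝ), S ⊆ P → 3 * S.card + 2 * T.card < 2 * d + 1 →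
              (G.induce ((P : Set (ℝ × ℝ)) \ (S : Set (ℝ × ℝ)))).Connected) :=
  VK.FIN6_main VK.bounds VK.RD1_proved VK.rd4
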